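import Pool.Agent.BEW.StmtsS

/-! # Squad BEW, row NRB (helper63): no resonances -/

set_option autoImplicit false

namespace Pool.Agent.BEW.H63

open Pool.Agent.BEW

theorem core {I : ℤ} {c0 w e N : ℝ} (hw : |w| ≤ N) (hN : |c0| * N ≤ 1 / 32)
    (he : |e| ≤ 3 / 32 * |c0|) (hc : |c0| ≤ 1 / 32) (h0 : I = 0 → 1 ≤ |w|) :
    |c0| / 4 * (1 + |(I : ℝ)|) ≤ |(I : ℝ) + c0 / 2 * w + e| := by
  have hcn := abs_nonneg c0
  have hcw : |c0 / 2 * w| = |c0| / 2 * |w| := by
    rw [abs_mul, abs_div, abs_two]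
  rcases eq_or_ne I 0 with hI | hI
  · subst hI
    have h1 := h0 rfl
    have h2 : |c0 / 2 * w| - |e| ≤ |c0 / 2 * w + e| := by
      have := abs_sub_abs_le_abs_sub (c0 / 2 * w) (-e)
      rwa [abs_neg, sub_neg_eq_add] at this
    have h3 : |c0| / 2 * 1 ≤ |c0| / 2 * |w| := by
      apply mul_le_mul_of_nonneg_left h1
      linarith
    rw [hcw] at h2
    rw [Int.cast_zero, abs_zero, zero_add]
    linarith
  · have h1 : (1 : ℝ) ≤ |(I : ℝ)| := by
      have := Int.one_le_abs hI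
      exact_mod_cast this
    have h2 : |(I : ℝ)| - |c0 / 2 * w + e| ≤ |(I : ℝ) + c0 / 2 * w + e| := by
      have := abs_sub_abs_le_abs_sub (I : ℝ) (-(c0 / 2 * w + e))
      rw [abs_neg, sub_neg_eq_add] at this
      rwa [add_assoc]
    have h3 : |c0 / 2 * w + e| ≤ |c0 / 2 * w| + |e| := abs_add_le _ _
    rw [hcw] at h3
    have h4 : |c0| / 2 * |w| ≤ |c0| / 2 * N := by
      apply mul_le_mul_of_nonneg_left hw
      linarith
    have h5 : |c0| / 4 * (1 + |(I : ℝ)|) ≤ 1 / 128 * (1 + |(I : ℝ)|) := by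
      apply mul_le_mul_of_nonneg_right _ (by linarith)
      linarith
    linarith

theorem nrb : NrbStmt := by
  intro J
  have hJ : (0 : ℝ) ≤ (J : ℝ) := Nat.cast_nonneg J
  obtain ⟨κ, hκ⟩ : ∃ κ : ℝ, κ = 1 / (32 * ((J : ℝ) + 3)) := ⟨_, rfl⟩
  have hκ0 : 0 < κ := by rw [hκ]; positivity
  have hκm : κ * ((J : ℝ) + 3) = 1 / 32 := by
    rw [hκ]
    field_simp
  have hκ1 : κ ≤ 1 / 96 := by nlinarith
  refine ⟨κ, hκ0, by linarith, ?_⟩
  intro c0 lam hc0 hcκ hlam
  have hc := abs_pos.2 hc0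
  have hc2 : |c0| ≤ 1 / 96 := hcκ.trans hκ1
  -- the frequencies
  have key : ∀ k : ℕ, |Real.sqrt (lam k) - (((k : ℝ) + 1) + c0 / 2 * (1 / ((k : ℝ) + 1)))| ≤
      3 * κ * |c0| * (1 / ((k : ℝ) + 1)) := by
    intro k
    obtain ⟨n, hn⟩ : ∃ n : ℝ, n = (k : ℝ) + 1 := ⟨_, rfl⟩
    have hn1 : 1 ≤ n := by
      rw [hn]
      have : (0 : ℝ) ≤ k := Nat.cast_nonneg k
      linarith
    have hl := hlam k
    rw [← hn] at hl ⊢
    obtain ⟨x, hx⟩ : ∃ x : ℝ, x = 1 / n := ⟨_, rfl⟩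
    have hnx : n * x = 1 := by
      rw [hx]
      field_simp
    have hx0 : 0 < x := by rw [hx]; positivity
    have hx1 : x ≤ 1 := by
      by_contra hcon
      push Not at hcon
      nlinarith
    rw [← hx]
    have h1 := abs_le.1 hl
    have hcc := abs_le.1 (le_refl |c0|)
    have hκc : κ * |c0| ≤ 1 / 96 * (1 / 96) := mul_le_mul hκ1 hc2 hc.le (by norm_num)
    have hlpos : 0 < lam k := by nlinarith
    have hs := Real.sq_sqrt hlpos.le
    have hs0 := Real.sqrt_nonneg (lam k)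
    obtain ⟨s, hse⟩ : ∃ s : ℝ, s = Real.sqrt (lam k) := ⟨_, rfl⟩
    rw [← hse] at hs hs0 ⊢
    obtain ⟨A, hA⟩ : ∃ A : ℝ, A = n + c0 / 2 * x := ⟨_, rfl⟩
    rw [← hA]
    have hcx : |c0 * x| ≤ |c0| := by
      rw [abs_mul, abs_of_pos hx0]
      nlinarith
    have hcx' := abs_le.1 hcx
    have hA2 : n / 2 ≤ A := by
      rw [hA]
      nlinarith
    have e1 : (s - A) * (s + A) = (lam k - (n ^ 2 + c0)) - c0 ^ 2 * x ^ 2 / 4 := by
      have : A ^ 2 = n ^ 2 + c0 * (n * x) + c0 ^ 2 * x ^ 2 / 4 := by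
        rw [hA]
        ring
      rw [hnx] at this
      have : (s - A) * (s + A) = s ^ 2 - A ^ 2 := by ring
      rw [this, hs]
      linarith
    have e2 : |s - A| * (s + A) ≤ κ * |c0| + κ * |c0| / 4 := by
      have hsA : 0 ≤ s + A := by linarith
      rw [← abs_of_nonneg hsA, ← abs_mul, e1]
      have h3 : |(lam k - (n ^ 2 + c0)) - c0 ^ 2 * x ^ 2 / 4| ≤
          |lam k - (n ^ 2 + c0)| + |c0 ^ 2 * x ^ 2 / 4| := abs_sub _ _
      have h4 : |c0 ^ 2 * x ^ 2 / 4| ≤ κ * |c0| / 4 := by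
        rw [abs_of_nonneg (by positivity)]
        have h5 : c0 ^ 2 * x ^ 2 ≤ |c0| ^ 2 * 1 := by
          rw [sq_abs]
          apply mul_le_mul_of_nonneg_left _ (sq_nonneg _)
          nlinarith
        have h6 : |c0| ^ 2 ≤ κ * |c0| := by
          rw [sq]
          exact mul_le_mul_of_nonneg_right hcκ hc.le
        linarith
      linarith
    have e3 : |s - A| * (n / 2) ≤ κ * |c0| + κ * |c0| / 4 := by
      refine le_trans ?_ e2
      apply mul_le_mul_of_nonneg_left _ (abs_nonneg _)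
      linarith
    have e4 : |s - A| = |s - A| * (n / 2) * (2 * x) := by
      have : |s - A| * (n / 2) * (2 * x) = |s - A| * (n * x) := by ring
      rw [this, hnx, mul_one]
    rw [e4]
    have e5 : |s - A| * (n / 2) * (2 * x) ≤ (κ * |c0| + κ * |c0| / 4) * (2 * x) := by
      apply mul_le_mul_of_nonneg_right e3
      linarith
    have e6 : (κ * |c0| + κ * |c0| / 4) * (2 * x) = 5 / 2 * (κ * |c0| * x) := by ring
    have e7 : 0 ≤ κ * |c0| * x := by positivity
    have e8 : 3 * κ * |c0| * x = 3 * (κ * |c0| * x) := by ring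
    rw [e8]
    linarith
  -- inverse numbers
  have hinv : ∀ k : ℕ, 0 < 1 / ((k : ℝ) + 1) ∧ 1 / ((k : ℝ) + 1) ≤ 1 := by
    intro k
    have hk : (0 : ℝ) ≤ k := Nat.cast_nonneg k
    refine ⟨by positivity, ?_⟩
    rw [div_le_one (by linarith)]
    linarith
  have hinv2 : ∀ k : ℕ, 1 ≤ k → 1 / ((k : ℝ) + 1) ≤ 1 / 2 := by
    intro k hk
    have hk' : (1 : ℝ) ≤ k := by exact_mod_cast hk
    apply one_div_le_one_div_of_le (by norm_num)
    linarith
  have hprod : ∀ k : ℕ, ((k : ℝ) + 1) * (1 / ((k : ℝ) + 1)) = 1 := by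
    intro k
    have hk : (0 : ℝ) ≤ k := Nat.cast_nonneg k
    field_simp
  have hκc : κ * |c0| ≤ 1 / 96 * (1 / 96) := mul_le_mul hκ1 hc2 hc.le (by norm_num)
  have hκc0 : 0 < κ * |c0| := by positivity
  -- errors
  obtain ⟨rr, hrr⟩ : ∃ rr : ℕ → ℝ, ∀ k, rr k =
      Real.sqrt (lam k) - (((k : ℝ) + 1) + c0 / 2 * (1 / ((k : ℝ) + 1))) :=
    ⟨fun k => _, fun k => rfl⟩
  have hsq : ∀ k, Real.sqrt (lam k) = ((k : ℝ) + 1) + c0 / 2 * (1 / ((k : ℝ) + 1)) + rr k := by
    intro k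
    rw [hrr]
    ring
  have hr : ∀ k, |rr k| ≤ 3 * (κ * |c0|) * (1 / ((k : ℝ) + 1)) := by
    intro k
    rw [hrr]
    have := key k
    rwa [mul_assoc 3 κ |c0|] at this
  have hr1 : ∀ k, |rr k| ≤ 3 * (κ * |c0|) := by
    intro k
    refine (hr k).trans ?_
    have := mul_le_mul_of_nonneg_left (hinv k).2 (by positivity : (0 : ℝ) ≤ 3 * (κ * |c0|))
    linarith
  have hr2 : ∀ k, 1 ≤ k → |rr k| ≤ 3 * (κ * |c0|) * (1 / 2) := by
    intro k hk
    exact (hr k).trans (mul_le_mul_of_nonneg_left (hinv2 k hk) (by positivity))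
  have hcc := abs_le.1 (le_refl |c0|)
  have hκJ : κ * |c0| * ((J : ℝ) + 3) = 1 / 32 * |c0| := by
    have : κ * |c0| * ((J : ℝ) + 3) = κ * ((J : ℝ) + 3) * |c0| := by ring
    rw [this, hκm]
  have hcJ : |c0| * ((J : ℝ) + 1) ≤ 1 / 32 := by
    have h1 : |c0| * ((J : ℝ) + 1) ≤ κ * ((J : ℝ) + 1) :=
      mul_le_mul_of_nonneg_right hcκ (by linarith)
    nlinarith
  have hcint : ∀ k : ℕ, |c0 / 2 * (1 / ((k : ℝ) + 1))| ≤ |c0| / 2 := by
    intro k
    rw [abs_mul, abs_div, abs_two, abs_of_pos (hinv k).1]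
    have := mul_le_mul_of_nonneg_left (hinv k).2 (by positivity : (0 : ℝ) ≤ |c0| / 2)
    linarith
  have hjr : ∀ j : ℤ, |j| ≤ (J : ℤ) → |(j : ℝ)| ≤ J := by
    intro j hj
    exact_mod_cast hj
  have herr : ∀ j : ℤ, |j| ≤ (J : ℤ) → |(j : ℝ) * rr 0| ≤ 3 * (κ * |c0|) * J := by
    intro j hj
    rw [abs_mul]
    have h1 := mul_le_mul (hjr j hj) (hr1 0) (abs_nonneg _) hJ
    linarith
  refine ⟨⟨fun k => ?_, ?_⟩, |c0| / 4, ⟨by positivity, ?_, ?_, ?_⟩⟩
  · show ((k : ℝ) + 1) / 2 ≤ Real.sqrt (lam k)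
    rw [hsq]
    have h1 := abs_le.1 (hr1 k)
    have h2 := abs_le.1 (hcint k)
    have hk : (0 : ℝ) ≤ k := Nat.cast_nonneg k
    linarith
  · show Real.sqrt (lam 0) ≤ 2
    rw [hsq]
    have h1 := abs_le.1 (hr1 0)
    have h2 := abs_le.1 (hcint 0)
    rw [Nat.cast_zero] at h2 ⊢
    linarith
  · intro k j hk hj
    show |c0| / 4 ≤ |Real.sqrt (lam k) - j * Real.sqrt (lam 0)|
    have hJ2 := hjr j hj
    have e1 : Real.sqrt (lam k) - j * Real.sqrt (lam 0) =
        (((k : ℤ) + 1 - j : ℤ) : ℝ) + c0 / 2 * (1 / ((k : ℝ) + 1) - j) + (rr k - j * rr 0) := by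
      rw [hsq k, hsq 0]
      push_cast
      ring
    have hw : |1 / ((k : ℝ) + 1) - j| ≤ (J : ℝ) + 1 := by
      have h1 := abs_le.1 hJ2
      have h2 := hinv k
      rw [abs_le]
      constructor <;> linarith
    have he : |rr k - j * rr 0| ≤ 3 / 32 * |c0| := by
      have h1 : |rr k - j * rr 0| ≤ |rr k| + |j * rr 0| := abs_sub _ _
      have h2 := hr1 k
      have h3 := herr j hj
      linarith
    have h0 : ((k : ℤ) + 1 - j : ℤ) = 0 → 1 ≤ |1 / ((k : ℝ) + 1) - j| := by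
      intro h
      have h1 : j = (k : ℤ) + 1 := by linarith
      have h2 : (j : ℝ) = (k : ℝ) + 1 := by rw [h1]; push_cast; ring
      have h3 : (1 : ℝ) ≤ k := by exact_mod_cast hk
      have h4 := hinv2 k hk
      rw [h2, le_abs]
      right
      linarith
    have h := core hw hcJ he (by linarith) h0
    rw [e1]
    refine le_trans ?_ h
    have h5 : 0 ≤ |c0| / 4 * |(((k : ℤ) + 1 - j : ℤ) : ℝ)| := by positivity
    linarith
  · intro k l j hk hl hj hne
    show |c0| / 4 * (1 + |(k : ℝ) - l - j|) ≤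
      |Real.sqrt (lam k) - Real.sqrt (lam l) - j * Real.sqrt (lam 0)|
    have hJ2 := hjr j hj
    have e1 : Real.sqrt (lam k) - Real.sqrt (lam l) - j * Real.sqrt (lam 0) =
        (((k : ℤ) - l - j : ℤ) : ℝ) + c0 / 2 * (1 / ((k : ℝ) + 1) - 1 / ((l : ℝ) + 1) - j) +
          (rr k - rr l - j * rr 0) := by
      rw [hsq k, hsq l, hsq 0]
      push_cast
      ring
    have e2 : (k : ℝ) - l - j = (((k : ℤ) - l - j : ℤ) : ℝ) := by push_cast; ring
    have hw : |1 / ((k : ℝ) + 1) - 1 / ((l : ℝ) + 1) - j| ≤ (J : ℝ) + 1 := by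
      have h1 := abs_le.1 hJ2
      have h2 := hinv k
      have h3 := hinv l
      rw [abs_le]
      constructor <;> linarith
    have he : |rr k - rr l - j * rr 0| ≤ 3 / 32 * |c0| := by
      have h1 : |rr k - rr l - j * rr 0| ≤ |rr k - rr l| + |j * rr 0| := abs_sub _ _
      have h1' : |rr k - rr l| ≤ |rr k| + |rr l| := abs_sub _ _
      have h2 := hr1 k
      have h2' := hr1 l
      have h3 := herr j hj
      linarith
    have h0 : ((k : ℤ) - l - j : ℤ) = 0 →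
        1 ≤ |1 / ((k : ℝ) + 1) - 1 / ((l : ℝ) + 1) - j| := by
      intro h
      have h1 : j = (k : ℤ) - l := by linarith
      have hj0 : j ≠ 0 := by
        intro h2
        apply hne
        refine ⟨h2, ?_⟩
        rw [h2] at h1
        omega
      have h2 : (j : ℝ) = (k : ℝ) - l := by rw [h1]; push_cast; ring
      have h3 : (1 : ℝ) ≤ |(j : ℝ)| := by
        have := Int.one_le_abs hj0
        exact_mod_cast this
      have hx := hinv k
      have hy := hinv l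
      have e3 : 1 / ((k : ℝ) + 1) - 1 / ((l : ℝ) + 1) - j =
          -(j * (1 + 1 / ((k : ℝ) + 1) * (1 / ((l : ℝ) + 1)))) := by
        have hk0 : (0 : ℝ) ≤ k := Nat.cast_nonneg k
        have hl0 : (0 : ℝ) ≤ l := Nat.cast_nonneg l
        rw [h2]
        field_simp
        ring
      rw [e3, abs_neg, abs_mul]
      have h4 : 0 < 1 / ((k : ℝ) + 1) * (1 / ((l : ℝ) + 1)) := mul_pos hx.1 hy.1
      rw [abs_of_pos (by linarith : 0 < 1 + 1 / ((k : ℝ) + 1) * (1 / ((l : ℝ) + 1)))]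
      nlinarith
    have h := core hw hcJ he (by linarith) h0
    rw [e1, e2]
    exact h
  · intro k l j hk hl hj
    show |c0| / 4 * (1 + |(k : ℝ) + l + 2 - j|) ≤
      |Real.sqrt (lam k) + Real.sqrt (lam l) - j * Real.sqrt (lam 0)|
    have hJ2 := hjr j hj
    have e1 : Real.sqrt (lam k) + Real.sqrt (lam l) - j * Real.sqrt (lam 0) =
        (((k : ℤ) + l + 2 - j : ℤ) : ℝ) + c0 / 2 * (1 / ((k : ℝ) + 1) + 1 / ((l : ℝ) + 1) - j) +
          (rr k + rr l - j * rr 0) := by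
      rw [hsq k, hsq l, hsq 0]
      push_cast
      ring
    have e2 : (k : ℝ) + l + 2 - j = (((k : ℤ) + l + 2 - j : ℤ) : ℝ) := by push_cast; ring
    have hx2 := hinv2 k hk
    have hy2 := hinv2 l hl
    have hw : |1 / ((k : ℝ) + 1) + 1 / ((l : ℝ) + 1) - j| ≤ (J : ℝ) + 1 := by
      have h1 := abs_le.1 hJ2
      have h2 := hinv k
      have h3 := hinv l
      rw [abs_le]
      constructor <;> linarith
    have he : |rr k + rr l - j * rr 0| ≤ 3 / 32 * |c0| := by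
      have h1 : |rr k + rr l - j * rr 0| ≤ |rr k + rr l| + |j * rr 0| := abs_sub _ _
      have h1' : |rr k + rr l| ≤ |rr k| + |rr l| := abs_add_le _ _
      have h2 := hr1 k
      have h2' := hr1 l
      have h3 := herr j hj
      linarith
    have h0 : ((k : ℤ) + l + 2 - j : ℤ) = 0 →
        1 ≤ |1 / ((k : ℝ) + 1) + 1 / ((l : ℝ) + 1) - j| := by
      intro h
      have h1 : j = (k : ℤ) + l + 2 := by linarith
      have h2 : (j : ℝ) = (k : ℝ) + l + 2 := by rw [h1]; push_cast; ring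
      have hk1 : (1 : ℝ) ≤ k := by exact_mod_cast hk
      have hl1 : (1 : ℝ) ≤ l := by exact_mod_cast hl
      rw [h2, le_abs]
      right
      linarith
    have h := core hw hcJ he (by linarith) h0
    rw [e1, e2]
    exact h

end Pool.Agent.BEW.H63
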